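import Pool.Agent.helper55.NM.Spec

set_option autoImplicit false

namespace Pool.Agent.helper18.NM

open Pool.Agent.NM Finset Nat

open Classical in
theorem key {q : ℕ} (J : Finset (Fin q)) (j : ℕ) (hJ : J.card = j) :
    (univ.filter (fun τ : Equiv.Perm (Fin q) =>
      (univ.filter (fun i : Fin q => i.val < j)).image τ = J)).card = j ! * (q - j)! := by
  have h := Numbering.card_prefixed J
  rw [hJ, Fintype.card_fin] at h
  rw [← h]
  have hc : (univ.filter (fun i : Fin q => i.val < j)).card = j := by
    have hjq : j ≤ q := by
      rw [← hJ]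
      have := J.card_le_univ
      rwa [Fintype.card_fin] at this
    rw [Fin.card_filter_val_lt]
    exact Nat.min_eq_right hjq
  refine Finset.card_bij'
    (fun τ _ => (τ.symm.trans (finCongr (Fintype.card_fin q).symm) : Numbering (Fin q)))
    (fun f _ => (Equiv.trans f (finCongr (Fintype.card_fin q))).symm) ?_ ?_ ?_ ?_
  · intro τ hτ
    rw [mem_filter] at hτ
    rw [Numbering.mem_prefixed]
    intro x
    rw [← hτ.2, card_image_of_injective _ τ.injective, hc, mem_image]
    constructor
    · rintro ⟨i, hi, rfl⟩
      rw [mem_filter] at hi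
      simpa using hi.2
    · intro hx
      refine ⟨τ.symm x, ?_, by simp⟩
      rw [mem_filter]
      exact ⟨mem_univ _, by simpa using hx⟩
  · intro f hf
    rw [Numbering.mem_prefixed] at hf
    rw [mem_filter]
    refine ⟨mem_univ _, ?_⟩
    ext x
    rw [hf x, hJ, mem_image]
    constructor
    · rintro ⟨i, hi, rfl⟩
      rw [mem_filter] at hi
      simpa using hi.2
    · intro hx
      refine ⟨(finCongr (Fintype.card_fin q)) (f x), ?_, by simp⟩
      rw [mem_filter]
      exact ⟨mem_univ _, by simpa using hx⟩
  · intro τ _
    ext x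
    simp
  · intro f _
    ext x
    simp

theorem DCT : DCT_stmt := by
  classical
  intro q y c j hj
  have h1 : (univ.filter (fun τ : Equiv.Perm (Fin q) => Yp y τ j = c)).card =
      ∑ J ∈ univ.filter (fun J : Finset (Fin q) => J.card = j ∧ ∑ i ∈ J, y i = c), j ! * (q - j)! := by
    rw [Finset.card_eq_sum_card_fiberwise
      (f := fun τ : Equiv.Perm (Fin q) => (univ.filter (fun i : Fin q => i.val < j)).image τ)
      (t := univ.filter (fun J : Finset (Fin q) => J.card = j ∧ ∑ i ∈ J, y i = c))]
    · refine sum_congr rfl ?_
      intro J hJ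
      rw [mem_filter] at hJ
      rw [← key J j hJ.2.1]
      congr 1
      ext τ
      simp only [mem_filter, mem_univ, true_and]
      constructor
      · intro h
        exact h.2
      · intro h
        refine ⟨?_, h⟩
        rw [← hJ.2.2, ← h, sum_image (fun a _ b _ hab => τ.injective hab)]
        rfl
    · intro τ hτ
      rw [mem_coe, mem_filter] at hτ
      rw [mem_coe, mem_filter]
      refine ⟨mem_univ _, ?_, ?_⟩
      · rw [card_image_of_injective _ τ.injective, Fin.card_filter_val_lt]
        exact Nat.min_eq_right hj
      · rw [sum_image (fun a _ b _ hab => τ.injective hab), ← hτ.2]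
        rfl
  have h2 := Nat.choose_mul_factorial_mul_factorial hj
  rw [sum_const, smul_eq_mul] at h1
  have h3 : (univ.filter (fun τ : Equiv.Perm (Fin q) => Yp y τ j = c)).card =
      (univ.filter (fun J : Finset (Fin q) => J.card = j ∧ ∑ i ∈ J, y i = c)).card *
        (j ! * (q - j)!) := h1
  have h4 : (univ.filter (fun J : Finset (Fin q) => J.card = j ∧ ∑ i ∈ J, y i = c)).card * q ! =
      q.choose j * (univ.filter (fun τ : Equiv.Perm (Fin q) => Yp y τ j = c)).card := by
    rw [h3, ← h2]
    ring
  exact h4

end Pool.Agent.helper18.NM
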